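import Pool.Agent.W2helper26.TR.Stm2

/-! Piece A (assembly) of the counterexample to MP_27fa52_an: `StepStm → OrthStm → OutStm`. -/

set_option autoImplicit false

open Complex Filter Topology Set MeasureTheory

namespace Pool.Agent.W2helper89.TR

open Pool.Agent.W2helper26.TR

lemma Bd_closed (a b c d : ℝ) : IsClosed (Bd a b c d) := by
  have e : Bd a b c d = ((Complex.re ⁻¹' Icc a b) ∩ ((Complex.im ⁻¹' {c}) ∪ (Complex.im ⁻¹' {d}))) ∪
      ((Complex.im ⁻¹' Icc c d) ∩ ((Complex.re ⁻¹' {a}) ∪ (Complex.re ⁻¹' {b}))) := by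
    ext s
    rfl
  rw [e]
  refine IsClosed.union (IsClosed.inter ?_ (IsClosed.union ?_ ?_))
    (IsClosed.inter ?_ (IsClosed.union ?_ ?_))
  · exact isClosed_Icc.preimage Complex.continuous_re
  · exact isClosed_singleton.preimage Complex.continuous_im
  · exact isClosed_singleton.preimage Complex.continuous_im
  · exact isClosed_Icc.preimage Complex.continuous_im
  · exact isClosed_singleton.preimage Complex.continuous_re
  · exact isClosed_singleton.preimage Complex.continuous_re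

lemma Bd_compact {a b c d : ℝ} (hab : a ≤ b) (hcd : c ≤ d) : IsCompact (Bd a b c d) :=
  (isCompact_Icc.reProdIm isCompact_Icc).of_isClosed_subset (Bd_closed a b c d) (Bd_sub hab hcd)

lemma BN_compact {b a : ℝ} (hb : 0 < b) : IsCompact (BN b a) :=
  Bd_compact (by linarith) (by linarith [Real.pi_pos])

lemma gf_bound {b a c : ℝ} (hb : 0 < b) (hbc : b < c) {G : ℂ → ℂ} (hG : ContinuousOn G (BN b a)) :
    ∃ C : ℝ, ∀ τ : ℝ, ‖gf b a G τ‖ ≤ C * Real.exp (c * max τ 0) := by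
  obtain ⟨C0, hC0⟩ := (BN_compact hb).exists_bound_of_continuousOn hG
  refine ⟨|C0| * (2 * (b - b / 2) + 2 * ((a + 4 * Real.pi) - (a + 2 * Real.pi))), fun τ => ?_⟩
  have h1 : ‖RN b a (fun z => G z * cexp (τ * z))‖ ≤
      (|C0| * Real.exp (c * max τ 0)) *
        (2 * (b - b / 2) + 2 * ((a + 4 * Real.pi) - (a + 2 * Real.pi))) := by
    apply RI_norm_le (by linarith) (by linarith [Real.pi_pos])
    intro z hz
    have hz' := BN_mem hb hz
    rw [norm_mul, Complex.norm_exp]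
    have e : ((τ : ℂ) * z).re = τ * z.re := by simp
    rw [e]
    apply mul_le_mul ((hC0 z hz).trans (le_abs_self _))
      (exp_le_max (by linarith) (by linarith)) (Real.exp_pos _).le (abs_nonneg _)
  unfold gf
  rw [norm_mul]
  have h2 := norm_two_pi_inv_le
  calc ‖(2 * Real.pi * I : ℂ)⁻¹‖ * ‖RN b a (fun z => G z * cexp (τ * z))‖
      ≤ 1 * ((|C0| * Real.exp (c * max τ 0)) *
        (2 * (b - b / 2) + 2 * ((a + 4 * Real.pi) - (a + 2 * Real.pi)))) :=
        mul_le_mul h2 h1 (norm_nonneg _) zero_le_one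
    _ = _ := by ring

lemma gf_cont {b a : ℝ} (hb : 0 < b) {G : ℂ → ℂ} (hG : ContinuousOn G (BN b a)) :
    Continuous (gf b a G) := by
  have h1 : ContinuousOn (fun τ : ℝ => RI (b / 2) b (a + 2 * Real.pi) (a + 4 * Real.pi)
      ((fun (τ : ℝ) (z : ℂ) => G z * cexp (τ * z)) τ)) univ := by
    apply RI_contOn (by linarith) (by linarith [Real.pi_pos])
    apply ContinuousOn.mul
    · exact hG.comp continuousOn_snd (fun p hp => hp.2)
    · apply Continuous.continuousOn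
      show Continuous (fun p : ℝ × ℂ => cexp ((p.1 : ℂ) * p.2))
      fun_prop
  rw [continuousOn_univ] at h1
  exact continuous_const.mul h1

/-- the interior point of the first box -/
noncomputable def xi : ℂ := ⟨3 / 32, ak 0 + 3 * Real.pi⟩

lemma xi_mem : xi ∈ Set.Ioo ((1:ℝ) / 8 / 2) (1 / 8) ×ℂ
    Set.Ioo (ak 0 + 2 * Real.pi) (ak 0 + 4 * Real.pi) := by
  refine ⟨?_, ?_⟩
  · show (3 / 32 : ℝ) ∈ Set.Ioo ((1:ℝ) / 8 / 2) (1 / 8)
    constructor <;> norm_num
  · show ak 0 + 3 * Real.pi ∈ Set.Ioo (ak 0 + 2 * Real.pi) (ak 0 + 4 * Real.pi)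
    constructor <;> linarith [Real.pi_pos]

/-- the initial state -/
noncomputable def s0 : Sta where
  M := fun _ => 1
  G := fun μ => (μ - xi)⁻¹
  b := 1 / 8
  c := 1 / 4
  ℓ := 0
  X := 64

lemma s0_inv : Inv 0 s0 where
  hb := by show (0:ℝ) < 1 / 8; norm_num
  hbc := by show (1 / 8:ℝ) < 1 / 4; norm_num
  hc := by show (1 / 4:ℝ) ≤ 1 / 2; norm_num
  hM := differentiableOn_const 1
  m2 := by
    intro z _ _
    show ‖(1:ℂ) - 1‖ ≤ _
    rw [sub_self, norm_zero]
    have : (1 / 2 - (1 / 2 : ℝ) ^ (0 + 1)) = 0 := by norm_num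
    rw [this, zero_mul]
  m3 := by
    intro z _ _ _
    show 1 ≤ (1:ℂ).re ∧ (1:ℂ).im ≤ 0
    simp
  m4 := by
    intro z _ _
    show ‖(1:ℂ)‖ ≤ _
    rw [norm_one]
    have : 0 ≤ qk 0 / 8 * ‖1 - z‖ := by
      unfold qk
      positivity
    linarith
  hG := by
    show ContinuousOn (fun μ : ℂ => (μ - xi)⁻¹) (BN (1 / 8) (ak 0))
    apply ContinuousOn.inv₀ (by fun_prop)
    intro μ hμ h
    rw [sub_eq_zero] at h
    rw [h] at hμ
    exact Bd_not_Ioo hμ xi_mem
  hex := by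
    intro h
    exact absurd h (by norm_num)

lemma g0_eq (τ : ℝ) : gf s0.b (ak 0) s0.G τ = cexp (τ * xi) := by
  show (2 * Real.pi * I : ℂ)⁻¹ * RI (1 / 8 / 2) (1 / 8) (ak 0 + 2 * Real.pi) (ak 0 + 4 * Real.pi)
    (fun z => (z - xi)⁻¹ * cexp (τ * z)) = cexp (τ * xi)
  have h := RI_cauchy (a := 1 / 8 / 2) (b := 1 / 8) (c := ak 0 + 2 * Real.pi)
    (d := ak 0 + 4 * Real.pi) (by norm_num) (by linarith [Real.pi_pos])
    (h := fun z => cexp (τ * z)) (by fun_prop) (p := xi) xi_mem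
  have e : (fun z : ℂ => (z - xi)⁻¹ * cexp (τ * z)) = fun z => cexp (τ * z) * (z - xi)⁻¹ := by
    funext z; ring
  rw [e, h, ← mul_assoc, inv_mul_cancel₀, one_mul]
  exact Complex.two_pi_I_ne_zero

lemma g0_ge {τ : ℝ} (hτ : 0 ≤ τ) : 1 ≤ ‖gf s0.b (ak 0) s0.G τ‖ := by
  rw [g0_eq, Complex.norm_exp]
  have e : ((τ : ℂ) * xi).re = τ * (3 / 32) := by
    simp [xi]
  rw [e]
  exact Real.one_le_exp (by positivity)

theorem ass : AssStm := by
  intro hstep horth
  set η : ℕ → ℝ := fun k => (1 / 8) * (1 / 2) ^ k with hη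
  have hηp : ∀ k, 0 < η k := fun k => by rw [hη]; positivity
  have H : ∃ s : ℕ → Sta, s 0 = s0 ∧ ∀ k, Inv k (s k) ∧ Rel (η k) k (s k) (s (k + 1)) := by
    let S : ∀ k, {s : Sta // Inv k s} := fun k => Nat.rec ⟨s0, s0_inv⟩
      (fun k p => ⟨Classical.choose (hstep k p.1 (η k) (hηp k) p.2),
        (Classical.choose_spec (hstep k p.1 (η k) (hηp k) p.2)).1⟩) k
    exact ⟨fun k => (S k).1, rfl, fun k => ⟨(S k).2,
      (Classical.choose_spec (hstep k (S k).1 (η k) (hηp k) (S k).2)).2⟩⟩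
  obtain ⟨s, hs0, hs⟩ := H
  have hM : ∀ k, (s k).M = Mk (fun k => (s (k + 1)).ℓ) (fun k => (s (k + 1)).X) k := by
    intro k
    induction k with
    | zero =>
      rw [hs0]
      funext z
      simp [Mk, s0]
    | succ k ih =>
      rw [(hs k).2.hM, ih]
      funext z
      simp only [Mk, Finset.sum_range_succ]
      ring
  have hanti : Antitone (fun k => (s k).c) := antitone_nat_of_succ_le fun k => (hs k).2.hc
  have hsum : HasSum η (1 / 4) := by
    have h := (hasSum_geometric_of_lt_one (r := (1 / 2 : ℝ)) (by norm_num) (by norm_num)).mul_left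
      (1 / 8 : ℝ)
    have e : (1 / 8 : ℝ) * (1 - 1 / 2)⁻¹ = 1 / 4 := by norm_num
    rw [e] at h
    exact h
  obtain ⟨C, hC⟩ := gf_bound (hs 1).1.hb (hs 1).1.hbc (hs 1).1.hG
  refine ⟨fun k => (s (k + 1)).ℓ, fun k => (s (k + 1)).X, fun k => (s k).c, η,
    fun k => gf (s k).b (ak k) (s k).G, C, fun k => (hs k).2.hL, fun k => (hs k).2.hX,
    fun k => ⟨((hs k).1.hb.trans (hs k).1.hbc).le, (hs k).1.hc⟩, ?_, ?_, fun k => (hηp k).le,
    hsum.summable, hsum.tsum_eq.le, fun k => gf_cont (hs k).1.hb (hs k).1.hG, ?_,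
    fun k τ => (hs k).2.close τ, fun k hk n hn τ => (hs k).2.far hk n hn τ, hC, ?_⟩
  · intro j k hjk
    show ((s (j + 1)).ℓ : ℝ) * (s k).c ≤ Real.log (s (j + 1)).X
    have h1 : (s k).c ≤ (s (j + 1)).c := hanti (Nat.succ_le_of_lt hjk)
    exact (mul_le_mul_of_nonneg_left h1 (Nat.cast_nonneg _)).trans (hs j).2.hLc
  · refine squeeze_zero (fun k => ?_) (fun k => (hs k).2.hlog)
      (tendsto_pow_atTop_nhds_zero_of_lt_one (by norm_num) (by norm_num))
    show 0 ≤ Real.log (s (k + 1)).X / (s (k + 1)).ℓ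
    exact div_nonneg (Real.log_nonneg (by linarith [(hs k).2.hX])) (Nat.cast_nonneg _)
  · intro τ hτ
    show 1 ≤ ‖gf (s 0).b (ak 0) (s 0).G τ‖
    rw [hs0]
    exact g0_ge hτ
  · intro k hk τ hτ
    apply horth (fun k => (s (k + 1)).ℓ) (fun k => (s (k + 1)).X) k (s k).b (ak k) (s k).G
      (fun j => (hs j).2.hX) (hs k).1.hb (lt_of_lt_of_le (hs k).1.hbc (hs k).1.hc) (hs k).1.hG _ τ hτ
    intro Ψ hΨ
    have := (hs k).1.hex hk Ψ hΨ
    rw [hM k] at this
    exact this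

end Pool.Agent.W2helper89.TR
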